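import Mathlib

/-!
Rank bound from a bound for `A/2A` (for project RW of helper336).
-/

set_option autoImplicit false

namespace Pool.Agent.Y950.RW

/-- a finitely generated group whose torsion points are killed by 2, with four points killed
by 2 and at most eight classes modulo doubles, is generated by one element and the points
killed by 2 -/
theorem rank_le {A : Type} [AddCommGroup A] (fg : AddGroup.FG A)
    (tor : ∀ R : A, R + R ≠ 0 → ∀ n : ℕ, 0 < n → n • R ≠ 0)
    (s : Fin 4 → A) (hs : Function.Injective s) (hs2 : ∀ i, s i + s i = 0)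
    (cl : A → Fin 8) (hcl : ∀ R R' : A, cl R = cl R' → ∃ Q, R - R' = Q + Q) :
    ∃ P0 : A, ∀ R : A, ∃ a : ℤ, (R - a • P0) + (R - a • P0) = 0 := by
  classical
  have tor2 : ∀ R : A, R ∈ Submodule.torsion ℤ A → R + R = 0 := by
    intro R hR
    rw [Submodule.mem_torsion_iff] at hR
    obtain ⟨n, hn⟩ := hR
    by_contra h
    have hn0 : (n : ℤ) ≠ 0 := nonZeroDivisors.ne_zero n.2
    apply tor R h (n : ℤ).natAbs (Int.natAbs_pos.mpr hn0)
    have hn' : (n : ℤ) • R = 0 := hn
    rcases Int.natAbs_eq (n : ℤ) with h1 | h1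
    · rw [h1] at hn'
      simpa using hn'
    · rw [h1] at hn'
      simpa using hn'
  haveI : Module.Finite ℤ A := Module.Finite.iff_addGroup_fg.mpr fg
  set B := A ⧸ Submodule.torsion ℤ A with hB
  haveI : Module.Free ℤ B := inferInstance
  set r := Module.finrank ℤ B with hr
  let b : Module.Basis (Fin r) ℤ B := Module.finBasis ℤ B
  let π : A →ₗ[ℤ] B := (Submodule.torsion ℤ A).mkQ
  have hπ : Function.Surjective π := Submodule.mkQ_surjective _
  have hker : ∀ R : A, π R = 0 → R + R = 0 := by
    intro R hR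
    apply tor2
    have := (Submodule.Quotient.mk_eq_zero (Submodule.torsion ℤ A) (x := R)).mp
    exact this hR
  have hr1 : r ≤ 1 := by
    by_contra hlt
    have hr2 : 2 ≤ r := by omega
    obtain ⟨b1, hb1⟩ := hπ (b ⟨0, by omega⟩)
    obtain ⟨b2, hb2⟩ := hπ (b ⟨1, by omega⟩)
    let F : Fin 4 × Fin 2 × Fin 2 → A := fun t => s t.1 + (t.2.1 : ℕ) • b1 + (t.2.2 : ℕ) • b2
    have hcard : Fintype.card (Fin 8) < Fintype.card (Fin 4 × Fin 2 × Fin 2) := by
      simp
    obtain ⟨t, t', htt, hcl'⟩ := Fintype.exists_ne_map_eq_of_card_lt (fun t => cl (F t)) hcard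
    obtain ⟨Q, hQ⟩ := hcl _ _ hcl'
    have hs0 : ∀ i, π (s i) = 0 := by
      intro i
      change Submodule.Quotient.mk (s i) = 0
      rw [Submodule.Quotient.mk_eq_zero, Submodule.mem_torsion_iff]
      refine ⟨⟨2, mem_nonZeroDivisors_of_ne_zero (by norm_num)⟩, ?_⟩
      change (2 : ℤ) • s i = 0
      rw [two_smul]
      exact hs2 i
    have hF : ∀ t, π (F t) = (t.2.1 : ℕ) • b ⟨0, by omega⟩ + (t.2.2 : ℕ) • b ⟨1, by omega⟩ := by
      intro t
      simp only [F, map_add, map_nsmul, hs0, hb1, hb2, zero_add]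
    have hπQ := congrArg π hQ
    rw [map_sub, hF t, hF t', map_add] at hπQ
    have h01 : (⟨0, by omega⟩ : Fin r) ≠ ⟨1, by omega⟩ := by
      intro h; simp at h
    have c0 := congrArg (fun z => b.repr z ⟨0, by omega⟩) hπQ
    have c1 := congrArg (fun z => b.repr z ⟨1, by omega⟩) hπQ
    simp only [map_sub, map_add, map_nsmul, Module.Basis.repr_self, Finsupp.sub_apply,
      Finsupp.add_apply, Finsupp.smul_apply, Finsupp.single_eq_same,
      Finsupp.single_eq_of_ne h01, Finsupp.single_eq_of_ne h01.symm] at c0 c1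
    have e1 : t.2.1 = t'.2.1 := by
      have := t.2.1.2
      have := t'.2.1.2
      apply Fin.ext
      simp at c0
      omega
    have e2 : t.2.2 = t'.2.2 := by
      have := t.2.2.2
      have := t'.2.2.2
      apply Fin.ext
      simp at c1
      omega
    have hss : s t.1 - s t'.1 = Q + Q := by
      rw [← hQ]
      simp only [F]
      rw [e1, e2]
      abel
    have hne : s t.1 - s t'.1 ≠ 0 := by
      intro h
      have := hs (sub_eq_zero.mp h)
      apply htt
      exact Prod.ext this (Prod.ext e1 e2)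
    rw [hss] at hne
    apply tor Q hne 4 (by norm_num)
    have h4 : (4 : ℕ) • Q = (Q + Q) + (Q + Q) := by
      rw [show (4 : ℕ) = 2 + 2 by norm_num, add_smul, two_smul]
    rw [h4, ← hss]
    have ha := hs2 t.1
    have hb := hs2 t'.1
    have : s t.1 - s t'.1 + (s t.1 - s t'.1) = (s t.1 + s t.1) - (s t'.1 + s t'.1) := by abel
    rw [this, ha, hb, sub_zero]
  by_cases h0 : r = 0
  · refine ⟨0, fun R => ⟨0, ?_⟩⟩
    have : R - (0 : ℤ) • (0 : A) = R := by simp
    rw [this]
    apply hker
    apply b.repr.injective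
    ext i
    exact absurd i.2 (by omega)
  · have hr' : r = 1 := by omega
    obtain ⟨b1, hb1⟩ := hπ (b ⟨0, by omega⟩)
    refine ⟨b1, fun R => ⟨b.repr (π R) ⟨0, by omega⟩, ?_⟩⟩
    apply hker
    apply b.repr.injective
    ext i
    have hi : i = ⟨0, by omega⟩ := by
      apply Fin.ext
      have := i.2
      simp
      omega
    subst hi
    rw [map_sub, map_smul, hb1]
    simp

end Pool.Agent.Y950.RW
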