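import Mathlib
import Pool.Agent.Y336.RW.Stm
import Pool.Agent.Y950.RW.Rank

/-!
PROJECT RW, part RW-STR: structure of the coset `P + 2E(ℚ)`.
-/

set_option autoImplicit false

open Pool.Agent.Y336.RW

namespace Pool.Agent.Y950.RW

lemma sq_of_two {x x' c : ℚ} (hc : c ≠ 0) (h : IsSquare (x * c)) (h' : IsSquare (x' * c)) :
    IsSquare (x * x') := by
  obtain ⟨a, ha⟩ := h
  obtain ⟨b, hb⟩ := h'
  refine ⟨a * b / c, ?_⟩
  field_simp
  linear_combination (x' * c) * ha + (a * a) * hb

lemma no_sq5 (q : ℚ) : q * q ≠ 5 := by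
  intro h
  have h5 : ¬ IsSquare (5 : ℚ) := by
    rw [show (5 : ℚ) = ((5 : ℕ) : ℚ) by norm_num, Rat.isSquare_natCast_iff]
    rintro ⟨r, hr⟩
    have : r ≤ 2 := by nlinarith
    interval_cases r <;> omega
  exact h5 ⟨q, h.symm⟩

lemma classes_ne {c : ℚ × ℚ × ℚ} (hc : c ∈ classes) : c.1 ≠ 0 ∧ c.2.1 ≠ 0 ∧ c.2.2 ≠ 0 := by
  simp only [classes, List.mem_cons, List.not_mem_nil, or_false] at hc
  rcases hc with h | h | h | h | h | h | h | h <;> subst h <;> norm_num

lemma y_zero_of_x (g : Grp) {R : E} (hR : R ≠ 0) {e : ℚ} (he : e = 0 ∨ e = 5 ∨ e = -5)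
    (hx : xc R = e) : yc R = 0 := by
  have h := g.eqn R hR
  rw [hx] at h
  have : yc R ^ 2 = 0 := by
    rw [h]
    rcases he with h | h | h <;> subst h <;> norm_num
  exact pow_eq_zero_iff (two_ne_zero) |>.mp this

lemma two_zero_iff (g : Grp) {R : E} (h : R + R = 0) :
    R = 0 ∨ (R ≠ 0 ∧ yc R = 0 ∧ (xc R = 0 ∨ xc R = 5 ∨ xc R = -5)) := by
  by_cases hR : R = 0
  · exact Or.inl hR
  · right
    have hy : yc R = 0 := by
      by_contra hy
      exact (g.dbl R hR hy).1 h
    refine ⟨hR, hy, ?_⟩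
    have he := g.eqn R hR
    rw [hy] at he
    have : xc R * ((xc R - 5) * (xc R + 5)) = 0 := by linear_combination -he
    rcases mul_eq_zero.mp this with h1 | h1
    · exact Or.inl h1
    · rcases mul_eq_zero.mp h1 with h2 | h2
      · right; left; linarith
      · right; right; linarith

/-- the class of a point and of its translate by a double agree -/
lemma sqdiff (g : Grp) (c : Cls) {R S Q : E} (hR : R ≠ 0) (hS : S ≠ 0) (h : R + S = Q + Q)
    (h4 : (Q + Q) + (Q + Q) ≠ 0) {e : ℚ} (he : e = 0 ∨ e = 5 ∨ e = -5) :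
    IsSquare ((xc R - e) * (xc S - e)) := by
  have hW : Q + Q ≠ 0 := by
    intro h0
    apply h4
    rw [h0, add_zero]
  have hQ : Q ≠ 0 := by
    intro h0
    apply hW
    rw [h0, add_zero]
  have hRS : R + S ≠ 0 := by rw [h]; exact hW
  obtain ⟨k, hk⟩ := c.mul R S hR hS hRS e he
  obtain ⟨l, hl⟩ := c.mul Q Q hQ hQ hW e he
  rw [h] at hk
  have hxQ : xc Q - e ≠ 0 := by
    intro h0
    apply hW
    exact g.dbl0 Q hQ (y_zero_of_x g hQ he (sub_eq_zero.mp h0))
  have hxW : xc (Q + Q) - e ≠ 0 := by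
    intro h0
    apply h4
    exact g.dbl0 _ hW (y_zero_of_x g hW he (sub_eq_zero.mp h0))
  have hl0 : l ≠ 0 := by
    intro h0
    rw [h0, mul_zero] at hl
    exact (mul_ne_zero (mul_ne_zero hxQ hxQ) hxW) hl
  refine ⟨k * (xc Q - e) / l, ?_⟩
  have key : (xc R - e) * (xc S - e) * (l * l) = (k * (xc Q - e)) * (k * (xc Q - e)) := by
    rw [← hl]
    linear_combination (xc Q - e) ^ 2 * hk
  field_simp
  linear_combination key

/-- the structure of the group, with `P` an odd multiple of the generator -/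
lemma gen (g : Grp) (c : Cls) (d : Desc) (t : Tor) (P : E) (hP : P ≠ 0) (hPx : xc P = -4)
    (hPy : yc P = 6) :
    ∃ P1 : E, (∀ R : E, ∃ a : ℤ, (R - a • P1) + (R - a • P1) = 0) ∧
      ∃ c0 : ℤ, Odd c0 ∧ P = c0 • P1 := by
  classical
  have hPy0 : yc P ≠ 0 := by rw [hPy]; norm_num
  have hPP : P + P ≠ 0 := (g.dbl P hP hPy0).1
  have h4P : (P + P) + (P + P) ≠ 0 := by
    have := t P hPP 4 (by norm_num)
    intro h
    apply this
    rw [← h, show (4 : ℕ) = 2 + 2 by norm_num, add_smul, two_smul]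
  -- shifted point
  have hsh : ∀ R : E, ∃ D : E, yc (R + (D + D)) ≠ 0 := by
    intro R
    by_cases hy : yc R = 0
    · refine ⟨P, fun h0 => ?_⟩
      have h2R : R + R = 0 := by
        by_cases hR : R = 0
        · rw [hR, add_zero]
        · exact g.dbl0 R hR hy
      have h2 : (R + (P + P)) + (R + (P + P)) = 0 := by
        by_cases hR : R + (P + P) = 0
        · rw [hR, add_zero]
        · exact g.dbl0 _ hR h0
      apply h4P
      have : (R + (P + P)) + (R + (P + P)) = (R + R) + ((P + P) + (P + P)) := by abel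
      rw [this, h2R, zero_add] at h2
      exact h2
    · exact ⟨0, by rw [add_zero, add_zero]; exact hy⟩
  choose D hD using hsh
  have hne : ∀ R : E, yc R ≠ 0 → R ≠ 0 := by
    intro R hy h0
    apply hy
    rw [h0]
    rfl
  have hcls : ∀ R : E, ∃ i : Fin 8,
      IsSquare (xc (R + (D R + D R)) * (classes[(i : ℕ)]'(by simp [classes])).1) ∧
      IsSquare ((xc (R + (D R + D R)) - 5) * (classes[(i : ℕ)]'(by simp [classes])).2.1) ∧
      IsSquare ((xc (R + (D R + D R)) + 5) * (classes[(i : ℕ)]'(by simp [classes])).2.2) := by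
    intro R
    obtain ⟨cc, hcc, h1, h2, h3⟩ := d _ _ (hD R) (g.eqn _ (hne _ (hD R)))
    obtain ⟨i, hi, hget⟩ := List.mem_iff_getElem.mp hcc
    have hi8 : i < 8 := by simpa [classes] using hi
    refine ⟨⟨i, hi8⟩, ?_⟩
    simp only [hget]
    exact ⟨h1, h2, h3⟩
  choose cl hcl using hcls
  have hclE : ∀ R R' : E, cl R = cl R' → ∃ Q, R - R' = Q + Q := by
    intro R R' h
    have hR := hcl R
    have hR' := hcl R'
    rw [← h] at hR'
    have hcc : (classes[((cl R : Fin 8) : ℕ)]'(by simp [classes])) ∈ classes :=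
      List.getElem_mem _
    obtain ⟨n1, n2, n3⟩ := classes_ne hcc
    obtain ⟨Q, hQ⟩ := c.half _ _ (hne _ (hD R)) (hne _ (hD R')) (hD R) (hD R')
      (sq_of_two n1 hR.1 hR'.1) (sq_of_two n2 hR.2.1 hR'.2.1) (sq_of_two n3 hR.2.2 hR'.2.2)
    refine ⟨Q - R' - D R - D R', ?_⟩
    have : Q - R' - D R - D R' + (Q - R' - D R - D R') =
      (Q + Q) - (R' + R' + (D R + D R) + (D R' + D R')) := by abel
    rw [this, ← hQ]
    abel
  -- the four points
  obtain ⟨T0, hT0, hT0x, hT0y⟩ := g.ex 0 0 (by norm_num)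
  obtain ⟨T1, hT1, hT1x, hT1y⟩ := g.ex 5 0 (by norm_num)
  obtain ⟨T2, hT2, hT2x, hT2y⟩ := g.ex (-5) 0 (by norm_num)
  let s : Fin 4 → E := ![0, T0, T1, T2]
  have hs2 : ∀ i, s i + s i = 0 := by
    intro i
    fin_cases i
    · exact add_zero _
    · exact g.dbl0 _ hT0 hT0y
    · exact g.dbl0 _ hT1 hT1y
    · exact g.dbl0 _ hT2 hT2y
  have h01 : T0 ≠ T1 := by intro h; rw [h, hT1x] at hT0x; norm_num at hT0x
  have h02 : T0 ≠ T2 := by intro h; rw [h, hT2x] at hT0x; norm_num at hT0x
  have h12 : T1 ≠ T2 := by intro h; rw [h, hT2x] at hT1x; norm_num at hT1x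
  have hs : Function.Injective s := by
    intro i j hij
    fin_cases i <;> fin_cases j <;> first
      | rfl
      | exact absurd hij hT0
      | exact absurd hij hT1
      | exact absurd hij hT2
      | exact absurd hij hT0.symm
      | exact absurd hij hT1.symm
      | exact absurd hij hT2.symm
      | exact absurd hij h01
      | exact absurd hij h02
      | exact absurd hij h12
      | exact absurd hij h01.symm
      | exact absurd hij h02.symm
      | exact absurd hij h12.symm
  obtain ⟨P0, hP0⟩ := rank_le g.fg t s hs hs2 cl hclE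
  obtain ⟨c0, hc0⟩ := hP0 P
  set s0 := P - c0 • P0 with hs0
  have hPs : P = c0 • P0 + s0 := by rw [hs0]; abel
  have hodd : Odd c0 := by
    by_contra hnot
    rw [Int.not_odd_iff_even] at hnot
    obtain ⟨k, hk⟩ := hnot
    set Q := k • P0 with hQ
    have hPQ : P + s0 = Q + Q := by
      have h1 : c0 • P0 = Q + Q := by rw [hk, add_smul]
      rw [hPs, h1]
      have : Q + Q + s0 + s0 = Q + Q + (s0 + s0) := by abel
      rw [this, hc0, add_zero]
    rcases two_zero_iff g hc0 with h0 | ⟨hs00, hsy, hsx⟩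
    · rw [h0, add_zero] at hPQ
      have hQQ : Q + Q ≠ 0 := by rw [← hPQ]; exact hP
      have hQ0 : Q ≠ 0 := by
        intro h
        apply hQQ
        rw [h, add_zero]
      obtain ⟨l, hl⟩ := c.mul Q Q hQ0 hQ0 hQQ 0 (Or.inl rfl)
      rw [← hPQ, hPx] at hl
      have hxQ : xc Q ≠ 0 := by
        intro h
        exact hQQ (g.dbl0 Q hQ0 (y_zero_of_x g hQ0 (Or.inl rfl) h))
      have : 0 < xc Q ^ 2 := by positivity
      nlinarith [mul_self_nonneg l]
    · have h4 : (Q + Q) + (Q + Q) ≠ 0 := by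
        rw [← hPQ]
        have : P + s0 + (P + s0) = (P + P) + (s0 + s0) := by abel
        rw [this, hc0, add_zero]
        exact hPP
      rcases hsx with hx | hx | hx
      · obtain ⟨l, hl⟩ := sqdiff g c hP hs00 hPQ h4 (e := 5) (by norm_num)
        rw [hPx, hx] at hl
        apply no_sq5 (l / 3)
        field_simp
        linear_combination -hl
      · obtain ⟨l, hl⟩ := sqdiff g c hP hs00 hPQ h4 (e := 0) (by norm_num)
        rw [hPx, hx] at hl
        nlinarith [mul_self_nonneg l]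
      · obtain ⟨l, hl⟩ := sqdiff g c hP hs00 hPQ h4 (e := 0) (by norm_num)
        rw [hPx, hx] at hl
        apply no_sq5 (l / 2)
        field_simp
        linear_combination -hl
  refine ⟨P0 + s0, fun R => ?_, c0, hodd, ?_⟩
  · obtain ⟨a, ha⟩ := hP0 R
    refine ⟨a, ?_⟩
    have : R - a • (P0 + s0) + (R - a • (P0 + s0)) =
        (R - a • P0) + (R - a • P0) - a • (s0 + s0) := by
      rw [smul_add, smul_add]; abel
    rw [this, ha, hc0, smul_zero, sub_zero]
  · obtain ⟨k, hk⟩ := hodd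
    have h1 : c0 • s0 = s0 := by
      rw [hk, add_smul, one_smul, two_mul, add_smul, ← smul_add, hc0, smul_zero, zero_add]
    rw [smul_add, h1]
    exact hPs

/-- **RW-STR**. -/
theorem str (g : Grp) (c : Cls) (d : Desc) (t : Tor) : Str := by
  classical
  obtain ⟨P, hP, hPx, hPy⟩ := g.ex (-4) 6 (by norm_num)
  have hPy0 : yc P ≠ 0 := by rw [hPy]; norm_num
  have hPP : P + P ≠ 0 := (g.dbl P hP hPy0).1
  obtain ⟨P1, hgen, c0, hodd, hPc⟩ := gen g c d t P hP hPx hPy
  have htorZ : ∀ n : ℤ, n • P1 = 0 → n = 0 := by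
    intro n hn
    by_contra hn0
    apply t P hPP n.natAbs (Int.natAbs_pos.mpr hn0)
    have h1 : n • P = 0 := by rw [hPc, smul_comm, hn, smul_zero]
    rcases Int.natAbs_eq n with h | h
    · rw [h] at h1
      simpa using h1
    · rw [h] at h1
      simpa using h1
  refine ⟨P1, ?_, ?_⟩
  · rintro R ⟨hR, u, v, w, hu, hv, hw⟩
    have hu0 : u ≠ 0 := by
      intro h; subst h
      have h5 : v * v = 5 := by nlinarith
      exact no_sq5 v h5
    have hv0 : v ≠ 0 := by
      intro h; subst h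
      nlinarith [sq_nonneg u, sq_nonneg w]
    have hw0 : w ≠ 0 := by
      intro h; subst h
      have h5 : u * u = 5 := by nlinarith
      exact no_sq5 u h5
    have hy : yc R ≠ 0 := by
      have he := g.eqn R hR
      have h2 : yc R ^ 2 = (u * v * w) ^ 2 := by
        rw [he]
        have : xc R ^ 3 - 25 * xc R = xc R * (xc R - 5) * (xc R + 5) := by ring
        rw [this, hu, ← hu, hv, hw, hu]
        ring
      intro h0
      rw [h0] at h2
      have : (u * v * w) ^ 2 ≠ 0 := pow_ne_zero _ (mul_ne_zero (mul_ne_zero hu0 hv0) hw0)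
      apply this
      rw [← h2]
      norm_num
    obtain ⟨Q, hQ⟩ := c.half R P hR hP hy hPy0 ⟨2 * u, by rw [hu, hPx]; ring⟩
      ⟨3 * v, by rw [hv, hPx]; ring⟩ ⟨w, by rw [hw, hPx]; ring⟩
    obtain ⟨b, hb⟩ := hgen Q
    refine ⟨2 * b - c0, ?_, ?_⟩
    · obtain ⟨k, hk⟩ := hodd
      exact ⟨b - k - 1, by rw [hk]; ring⟩
    · have h1 : Q + Q = (2 * b) • P1 := by
        have : Q + Q = (Q - b • P1) + (Q - b • P1) + (b • P1 + b • P1) := by abel
        rw [this, hb, zero_add, two_mul, add_smul]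
      have h2 : R = Q + Q - P := by rw [← hQ]; abel
      rw [h2, h1, sub_smul, ← hPc]
  · intro a ha
    set R := a • P1 with hRdef
    have hR : R ≠ 0 := by
      intro h
      have := htorZ a h
      rw [this] at ha
      exact absurd ha (by decide)
    refine ⟨hR, ?_⟩
    obtain ⟨k, hk⟩ := ha
    obtain ⟨k', hk'⟩ := hodd
    have hsum : R + P = (a + c0) • P1 := by
      rw [add_smul, ← hPc]
    by_cases h0 : a + c0 = 0
    · rw [h0, zero_smul] at hsum
      have hRP : R = -P := by
        rw [← sub_eq_zero, sub_neg_eq_add]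
        exact hsum
      have hx : xc R = -4 := by
        rw [hRP, (g.neg P hP).2.1, hPx]
      exact ⟨2, 3, 1, by rw [hx]; norm_num, by rw [hx]; norm_num, by rw [hx]; norm_num⟩
    · set Q := (k + k' + 1) • P1 with hQdef
      have hQQ : R + P = Q + Q := by
        rw [hsum, hQdef, ← add_smul]
        congr 1
        rw [hk, hk']
        ring
      have h4 : (Q + Q) + (Q + Q) ≠ 0 := by
        rw [← hQQ, hsum, ← add_smul]
        intro h
        have := htorZ _ h
        omega
      obtain ⟨l0, hl0⟩ := sqdiff g c hR hP hQQ h4 (e := 0) (by norm_num)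
      obtain ⟨l1, hl1⟩ := sqdiff g c hR hP hQQ h4 (e := 5) (by norm_num)
      obtain ⟨l2, hl2⟩ := sqdiff g c hR hP hQQ h4 (e := -5) (by norm_num)
      rw [hPx] at hl0 hl1 hl2
      refine ⟨l0 / 2, l1 / 3, l2, ?_, ?_, ?_⟩
      · field_simp
        linear_combination -hl0
      · field_simp
        linear_combination -hl1
      · linear_combination hl2

end Pool.Agent.Y950.RW
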